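import Pool.Agent.Helper64.RN.Goals2

/-!
# Project RN part 2 (MP_d01c92_ag): packet ME, several generic points.
-/

set_option autoImplicit false

open scoped BigOperators

universe u

namespace Pool.Agent.Helper9.RN.ME

open MvPolynomial

/-- A polynomial over `Λ` that vanishes at the points `v i` vanishes at the generic point. -/
theorem key {K : Type u} [Field K] {p : ℕ} {Λ : Type u} [CommRing Λ] [Algebra K Λ]
    (v : ℕ → Fin p → K) (I : Ideal (MvPolynomial (Fin p) K)) (Y' : Set ℕ)
    (hI : ∀ g : MvPolynomial (Fin p) K, (∀ i ∈ Y', eval (v i) g = 0) → g ∈ I)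
    (θ : Fin p → Λ) (hθ : ∀ g ∈ I, aeval θ g = 0) (g : MvPolynomial (Fin p) Λ)
    (hg : ∀ i ∈ Y', eval (fun j => algebraMap K Λ (v i j)) g = 0) : eval θ g = 0 := by
  classical
  let b := Module.Basis.ofVectorSpace K Λ
  let gj : Module.Basis.ofVectorSpaceIndex K Λ → MvPolynomial (Fin p) K := fun j =>
    ∑ m ∈ g.support, monomial m (b.repr (g.coeff m) j)
  have h1 : ∀ j, gj j ∈ I := by
    intro j
    refine hI _ fun i hi => ?_
    have h2 : eval (fun j => algebraMap K Λ (v i j)) g =
        ∑ m ∈ g.support, (∏ l, v i l ^ m l) • g.coeff m := by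
      rw [eval_eq']
      refine Finset.sum_congr rfl fun m _ => ?_
      rw [Algebra.smul_def, map_prod, mul_comm]
      simp only [map_pow]
    have h3 : b.repr (eval (fun j => algebraMap K Λ (v i j)) g) j = eval (v i) (gj j) := by
      rw [h2, map_sum, Finsupp.finsetSum_apply, map_sum]
      refine Finset.sum_congr rfl fun m _ => ?_
      rw [map_smul, Finsupp.smul_apply, smul_eq_mul, eval_monomial,
        Finsupp.prod_fintype _ _ (fun _ => pow_zero _), mul_comm]
    rw [← h3, hg i hi, map_zero, Finsupp.zero_apply]
  -- expand
  let J : Finset (Module.Basis.ofVectorSpaceIndex K Λ) :=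
    g.support.biUnion fun m => (b.repr (g.coeff m)).support
  have h4 : ∀ m ∈ g.support, g.coeff m = ∑ j ∈ J, b.repr (g.coeff m) j • b j := by
    intro m hm
    have e := b.linearCombination_repr (g.coeff m)
    rw [Finsupp.linearCombination_apply, Finsupp.sum] at e
    conv_lhs => rw [← e]
    refine Finset.sum_subset ?_ ?_
    · intro j hj
      exact Finset.mem_biUnion.2 ⟨m, hm, hj⟩
    · intro j _ hj
      rw [Finsupp.notMem_support_iff.1 hj, zero_smul]
  have h5 : eval θ g = ∑ j ∈ J, b j * aeval θ (gj j) := by
    rw [eval_eq']
    have e1 : ∀ m ∈ g.support, g.coeff m * ∏ l, θ l ^ m l =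
        ∑ j ∈ J, b j * aeval θ (monomial m (b.repr (g.coeff m) j)) := by
      intro m hm
      conv_lhs => rw [h4 m hm]
      rw [Finset.sum_mul]
      refine Finset.sum_congr rfl fun j _ => ?_
      rw [aeval_monomial, Finsupp.prod_fintype _ _ (fun _ => pow_zero _), Algebra.smul_def]
      ring
    rw [Finset.sum_congr rfl e1, Finset.sum_comm]
    refine Finset.sum_congr rfl fun j _ => ?_
    rw [map_sum, Finset.mul_sum]
  rw [h5]
  refine Finset.sum_eq_zero fun j _ => ?_
  rw [hθ _ (h1 j), mul_zero]

/-- Goal `S_ME`. -/
theorem t : Pool.Agent.Helper64.RN.S_ME.{u} := by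
  intro K _ p E _ _ v Y I hY hI G hG Λ _ _ θ hθ
  classical
  have claim : ∀ (S : Finset E) (ι : E → ℕ), Function.Injective ι → (∀ e, ι e ∈ Y) →
      aeval (fun q : E × Fin p =>
        if q.1 ∈ S then θ q.1 q.2 else algebraMap K Λ (v (ι q.1) q.2)) G = 0 := by
    intro S
    induction S using Finset.induction_on with
    | empty =>
      intro ι hι hιY
      have h := hG ι hι hιY
      have e : aeval (fun q : E × Fin p =>
          if q.1 ∈ (∅ : Finset E) then θ q.1 q.2 else algebraMap K Λ (v (ι q.1) q.2)) G =
          algebraMap K Λ (eval (fun q : E × Fin p => v (ι q.1) q.2) G) := by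
        rw [← coe_aeval_eq_eval]
        have := aeval_algebraMap_apply (A := K) Λ (fun q : E × Fin p => v (ι q.1) q.2) G
        rw [RingHom.coe_coe, ← this]
        refine congrArg (fun f => aeval f G) (funext fun q => ?_)
        simp
      rw [e, h, map_zero]
    | insert e S he ih =>
      intro ι hι hιY
      let w : E × Fin p → Λ := fun q =>
        if q.1 ∈ S then θ q.1 q.2 else algebraMap K Λ (v (ι q.1) q.2)
      let g : MvPolynomial (Fin p) Λ := aeval (fun q : E × Fin p =>
        if q.1 = e then (X q.2 : MvPolynomial (Fin p) Λ) else C (w q)) G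
      have hgev : ∀ x : Fin p → Λ,
          eval x g = aeval (fun q : E × Fin p => if q.1 = e then x q.2 else w q) G := by
        intro x
        have h := comp_aeval_apply (R := K) (fun q : E × Fin p =>
          if q.1 = e then (X q.2 : MvPolynomial (Fin p) Λ) else C (w q))
          ((aeval x : MvPolynomial (Fin p) Λ →ₐ[Λ] Λ).restrictScalars K) G
        have h' : ((aeval x : MvPolynomial (Fin p) Λ →ₐ[Λ] Λ).restrictScalars K) g = eval x g := by
          rw [AlgHom.restrictScalars_apply, ← coe_aeval_eq_eval]
          rfl
        rw [← h', h]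
        refine congrArg (fun f => aeval f G) (funext fun q => ?_)
        by_cases hq : q.1 = e
        · simp [hq]
        · simp [hq]
      have hfin : (ι '' {e' | e' ≠ e}).Finite := Set.toFinite _
      have hinf : (Y \ (ι '' {e' | e' ≠ e})).Infinite := hY.sdiff hfin
      have hk := key v I (Y \ (ι '' {e' | e' ≠ e}))
        (hI _ Set.sdiff_subset hinf) (θ e) (hθ e) g ?_
      · rw [hgev] at hk
        rw [← hk]
        refine congrArg (fun f => aeval f G) (funext fun q => ?_)
        by_cases hq : q.1 = e
        · simp [hq]
        · simp [hq, w]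
      · rintro i ⟨hiY, hi⟩
        rw [hgev]
        have hinj : Function.Injective (Function.update ι e i) := by
          intro a c hac
          by_cases ha : a = e
          · by_cases hc : c = e
            · rw [ha, hc]
            · exfalso
              rw [ha, Function.update_self, Function.update_of_ne hc] at hac
              exact hi ⟨c, hc, hac.symm⟩
          · by_cases hc : c = e
            · exfalso
              rw [hc, Function.update_self, Function.update_of_ne ha] at hac
              exact hi ⟨a, ha, hac⟩
            · rw [Function.update_of_ne ha, Function.update_of_ne hc] at hac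
              exact hι hac
        have hmem : ∀ a, Function.update ι e i a ∈ Y := by
          intro a
          by_cases ha : a = e
          · rw [ha, Function.update_self]
            exact hiY
          · rw [Function.update_of_ne ha]
            exact hιY a
        rw [← ih (Function.update ι e i) hinj hmem]
        refine congrArg (fun f => aeval f G) (funext fun q => ?_)
        by_cases hq : q.1 = e
        · simp [hq, he]
        · simp [hq, w]
  have h0 := claim Finset.univ (fun e => (hY.natEmbedding Y (Fintype.equivFin E e) : ℕ))
    (by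
      intro a c hac
      have h1 := Subtype.ext hac
      have h2 := (hY.natEmbedding Y).injective h1
      exact (Fintype.equivFin E).injective (Fin.ext h2))
    (fun e => (hY.natEmbedding Y (Fintype.equivFin E e)).2)
  rw [← h0]
  refine congrArg (fun f => aeval f G) (funext fun q => ?_)
  simp

end Pool.Agent.Helper9.RN.ME
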